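import Pool.Agent.Q113.OddLoop.Core

/-!
# MP_511665_al, Q1: the local loop lemma for odd cycles holds

Let `R` be a symmetric relation on a (possibly infinite) set `A`, let `f` be an idempotent operation
of arity `n` compatible with `R`, let `(c 0, …, c (l - 1))` be a closed walk of odd length `l` in `R`
(for instance an odd cycle, whose entries are moreover distinct), and suppose that the
neighbourhood of `c 0` absorbs `{c 0}` with respect to `f`.  Then `R` has a loop.
-/

namespace Pool.Agent.Results.MP_511665_al.OddCycleLoop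

theorem result {A : Type*} (R : A → A → Prop) (hsymm : ∀ x y, R x y → R y x)
    (n : ℕ) (f : (Fin n → A) → A)
    (hidem : ∀ x, f (fun _ => x) = x)
    (hcomp : ∀ x y : Fin n → A, (∀ i, R (x i) (y i)) → R (f x) (f y))
    (l : ℕ) (hodd : Odd l) (c : Fin l → A)
    (hstep : ∀ (i : ℕ) (h : i + 1 < l), R (c ⟨i, Nat.lt_of_succ_lt h⟩) (c ⟨i + 1, h⟩))
    (hclose : R (c ⟨l - 1, Nat.sub_lt hodd.pos Nat.one_pos⟩) (c ⟨0, hodd.pos⟩))
    (habs : ∀ (j : Fin n) (b : Fin n → A), (∀ i, R (c ⟨0, hodd.pos⟩) (b i)) →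
      R (c ⟨0, hodd.pos⟩) (f (Function.update b j (c ⟨0, hodd.pos⟩)))) :
    ∃ z, R z z := by
  have H : Q113.OddLoop.Hyp R f (c ⟨0, hodd.pos⟩) := ⟨hsymm, hidem, hcomp, habs⟩
  have hK : Even (l - 1) := by
    obtain ⟨k, rfl⟩ := hodd
    simp
  have hl := hodd.pos
  refine Q113.OddLoop.loop_of_odd_walk H hK
    (fun i => if h : i < l then c ⟨i, h⟩ else c ⟨0, hodd.pos⟩) (by simp [hl]) ?_ ?_
  · intro j hj
    have h1 : j < l := by omega
    have h2 : j + 1 < l := by omega
    simp only [h1, h2, dif_pos]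
    exact hstep j h2
  · have h1 : l - 1 < l := by omega
    simp only [h1, dif_pos]
    exact hclose

end Pool.Agent.Results.MP_511665_al.OddCycleLoop
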